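import Mathlib

namespace Pool.Agent.P.MP_1fa774_co

open MeasureTheory Finset

/-- A bounded smooth vector field on the unit box cannot have large divergence everywhere. -/
theorem div_bound {n : ℕ} (W : Fin (n + 1) → (Fin (n + 1) → ℝ) → ℝ)
    (W' : Fin (n + 1) → (Fin (n + 1) → ℝ) → (Fin (n + 1) → ℝ) →L[ℝ] ℝ)
    (hd : ∀ j x, HasFDerivAt (W j) (W' j x) x)
    (hc : Continuous fun x => ∑ j, W' j x (Pi.single j 1))
    (t c : ℝ)
    (hb : ∀ j, ∀ x ∈ Set.Icc (0 : Fin (n + 1) → ℝ) 1, |W j x| ≤ t)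
    (hl : ∀ x ∈ Set.Icc (0 : Fin (n + 1) → ℝ) 1, c ≤ ∑ j, W' j x (Pi.single j 1)) :
    c ≤ 2 * (n + 1) * t := by
  have h01 : (0 : Fin (n + 1) → ℝ) ≤ 1 := fun _ => zero_le_one
  have hI : IntegrableOn (fun x => ∑ j, W' j x (Pi.single j 1))
      (Set.Icc (0 : Fin (n + 1) → ℝ) 1) := hc.continuousOn.integrableOn_compact isCompact_Icc
  have key := integral_divergence_of_hasFDerivAt_off_countable' (0 : Fin (n + 1) → ℝ) 1 h01 W W'
    ∅ Set.countable_empty
    (fun i => (fun x _ => (hd i x).continuousAt.continuousWithinAt))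
    (fun x _ i => hd i x) hI
  have hvol : (volume (Set.Icc (0 : Fin (n + 1) → ℝ) 1)) = 1 := by
    rw [Real.volume_Icc_pi]; simp
  have hlow : c ≤ ∫ x in Set.Icc (0 : Fin (n + 1) → ℝ) 1, ∑ j, W' j x (Pi.single j 1) := by
    have h1 : ∫ _ in Set.Icc (0 : Fin (n + 1) → ℝ) 1, c = c := by
      rw [setIntegral_const, Measure.real, hvol]; simp
    rw [← h1]
    exact setIntegral_mono_on (integrableOn_const (by rw [hvol]; simp)) hI measurableSet_Icc hl
  have hface : ∀ (i : Fin (n + 1)) (s : ℝ), s ∈ Set.Icc (0 : ℝ) 1 →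
      |∫ x in Set.Icc ((0 : Fin (n + 1) → ℝ) ∘ Fin.succAbove i)
        ((1 : Fin (n + 1) → ℝ) ∘ Fin.succAbove i), W i (Fin.insertNth i s x)| ≤ t := by
    intro i s hs
    have hv : volume (Set.Icc ((0 : Fin (n + 1) → ℝ) ∘ Fin.succAbove i)
        ((1 : Fin (n + 1) → ℝ) ∘ Fin.succAbove i)) = 1 := by
      rw [Real.volume_Icc_pi]; simp
    have := norm_setIntegral_le_of_norm_le_const (μ := volume)
      (s := Set.Icc ((0 : Fin (n + 1) → ℝ) ∘ Fin.succAbove i)
        ((1 : Fin (n + 1) → ℝ) ∘ Fin.succAbove i))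
      (f := fun x => W i (Fin.insertNth i s x)) (C := t) (by rw [hv]; simp) (by
        intro x hx
        rw [Real.norm_eq_abs]
        apply hb
        constructor
        · rw [Fin.le_insertNth_iff]
          exact ⟨hs.1, hx.1⟩
        · rw [Fin.insertNth_le_iff]
          exact ⟨hs.2, hx.2⟩)
    rw [Measure.real, hv] at this
    simpa using this
  rw [key] at hlow
  refine hlow.trans ?_
  calc _ ≤ ∑ _i : Fin (n + 1), 2 * t := by
        apply Finset.sum_le_sum
        intro i _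
        have h1 := hface i 1 ⟨zero_le_one, le_rfl⟩
        have h0 := hface i 0 ⟨le_rfl, zero_le_one⟩
        have h1' := (abs_le.1 h1).2
        have h0' := (abs_le.1 h0).1
        simp only [Pi.one_apply, Pi.zero_apply]
        linarith
    _ = 2 * (n + 1) * t := by simp; ring

end Pool.Agent.P.MP_1fa774_co
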