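import Pool.Agent.P.MP_1fa774_co.Poincare
import Pool.Agent.P.MP_1fa774_co.Div

namespace Pool.Agent.P.MP_1fa774_co

open Finset

lemma sum_sq_sg {N : ℕ} (u v : Fin N → Bool) :
    ∑ a, (sg (u a) - sg (v a)) ^ 2 = 4 * (hammingDist u v : ℝ) := by
  rw [hd_eq, Finset.mul_sum]
  exact Finset.sum_congr rfl fun a _ => sg_sub_sq _ _

lemma sum_abs_sg {N : ℕ} (u v : Fin N → Bool) :
    ∑ a, |sg (u a) - sg (v a)| = 2 * (hammingDist u v : ℝ) := by
  rw [hd_eq, Finset.mul_sum]
  exact Finset.sum_congr rfl fun a _ => abs_sg_sub _ _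

lemma hd_edge {k : ℕ} (y : Fin k → Bool) (i : Fin k) :
    (hammingDist (Function.update y i true) (Function.update y i false) : ℝ) = 1 := by
  rw [hd_eq, Finset.sum_eq_single i]
  · simp
  · intro l _ hl
    simp [Function.update_of_ne hl]
  · simp

section core

variable {k N : ℕ} (f : (Fin k → Bool) → (Fin N → Bool)) (ε r : ℝ)

/-- coordinate functions -/
def ph (a : Fin N) (x : Fin k → Bool) : ℝ := sg (f x a)

variable {f ε r}

lemma edge_l1 (hup : ∀ x y, (hammingDist (f x) (f y) : ℝ) ≤ (1 + ε) * r * hammingDist x y)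
    (i : Fin k) {p : Fin k → ℝ} (hp : ∀ l, |p l| ≤ 1) :
    ∑ a, |U (ph f a) i p| ≤ (1 + ε) * r := by
  calc ∑ a, |U (ph f a) i p| ≤ ∑ a, M (fun y => |Dd i (ph f a) y|) p := by
        apply Finset.sum_le_sum
        intro a _
        rw [U_eq]
        exact abs_M_le_M_abs hp
    _ = M (fun y => ∑ a, |Dd i (ph f a) y|) p := (M_sum _ _ _).symm
    _ ≤ M (fun _ => (1 + ε) * r) p := by
        apply M_mono hp
        intro y
        have h1 := hup (Function.update y i true) (Function.update y i false)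
        rw [hd_edge, mul_one] at h1
        have h2 := sum_abs_sg (f (Function.update y i true)) (f (Function.update y i false))
        have h3 : ∑ a, |Dd i (ph f a) y| = (∑ a, |sg (f (Function.update y i true) a)
            - sg (f (Function.update y i false) a)|) / 2 := by
          rw [Finset.sum_div]
          apply Finset.sum_congr rfl
          intro a _
          unfold Dd ph
          rw [abs_div, abs_two]
        rw [h3, h2]
        linarith
    _ = (1 + ε) * r := M_const _ _

lemma inf_le (hup : ∀ x y, (hammingDist (f x) (f y) : ℝ) ≤ (1 + ε) * r * hammingDist x y) :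
    ∑ a, Inf (ph f a) ≤ (1 + ε) * r * k := by
  unfold Inf
  rw [Finset.sum_comm]
  calc ∑ i : Fin k, ∑ a, M (fun y => Dd i (ph f a) y ^ 2) 0 ≤ ∑ _i : Fin k, (1 + ε) * r := by
        apply Finset.sum_le_sum
        intro i _
        rw [← M_sum, ← M_const ((1 + ε) * r) (0 : Fin k → ℝ)]
        apply M_mono (by simp)
        intro y
        have h1 := hup (Function.update y i true) (Function.update y i false)
        rw [hd_edge, mul_one] at h1
        have h2 := sum_sq_sg (f (Function.update y i true)) (f (Function.update y i false))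
        have h3 : ∑ a, Dd i (ph f a) y ^ 2 = (∑ a, (sg (f (Function.update y i true) a)
            - sg (f (Function.update y i false) a)) ^ 2) / 4 := by
          rw [Finset.sum_div]
          apply Finset.sum_congr rfl
          intro a _
          unfold Dd ph
          ring
        rw [h3, h2]
        linarith
    _ = (1 + ε) * r * k := by simp; ring

lemma vr_ge (hlo : ∀ x y, r * (hammingDist x y : ℝ) ≤ hammingDist (f x) (f y)) :
    2 * (r * k) ≤ ∑ a, 2 * Vr (ph f a) := by
  simp_rw [two_Vr]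
  rw [← M_sum, ← M_const (2 * (r * k)) (0 : Fin k → ℝ)]
  apply M_mono (by simp)
  intro x
  rw [← M_sum]
  have h1 : M (fun y => 4 * r * (hammingDist x y : ℝ)) 0 = 2 * (r * k) := by
    rw [M_mul, M_hamming]
    simp; ring
  rw [← h1]
  apply M_mono (by simp)
  intro y
  have h2 := sum_sq_sg (f x) (f y)
  have h3 := hlo x y
  unfold ph
  rw [h2]
  linarith

lemma w1_ge (hlo : ∀ x y, r * (hammingDist x y : ℝ) ≤ hammingDist (f x) (f y))
    (hup : ∀ x y, (hammingDist (f x) (f y) : ℝ) ≤ (1 + ε) * r * hammingDist x y) :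
    (1 - ε) * (r * k) ≤ ∑ a, W1 (ph f a) := by
  have h1 := vr_ge hlo
  have h2 := inf_le hup
  have h3 : ∑ a, 2 * Vr (ph f a) ≤ ∑ a, W1 (ph f a) + ∑ a, Inf (ph f a) := by
    rw [← Finset.sum_add_distrib]
    exact Finset.sum_le_sum fun a _ => poincare2 _
  nlinarith

lemma close_le (hε : 0 ≤ (1 + ε) * r)
    (hup : ∀ x y, (hammingDist (f x) (f y) : ℝ) ≤ (1 + ε) * r * hammingDist x y)
    {lam : ℝ} (hl1 : lam ≤ 1) {p : Fin k → ℝ} (hp : ∀ l, |p l| ≤ lam) :
    ∑ a, ∑ i, (U (ph f a) i 0 - (1 - lam) * U (ph f a) i p) ^ 2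
      ≤ 4 * ((1 + ε) * r) * (k * lam) := by
  have hq : ∀ (x : Fin k → Bool) (l : Fin k), |(1 - lam) * sg (x l) + p l| ≤ 1 := by
    intro x l
    have h1 := abs_add_le ((1 - lam) * sg (x l)) (p l)
    rw [abs_mul, abs_sg, abs_of_nonneg (by linarith : 0 ≤ 1 - lam)] at h1
    linarith [hp l]
  have h1 : ∀ a, ∑ i, (U (ph f a) i 0 - (1 - lam) * U (ph f a) i p) ^ 2
      ≤ M (fun x => (ph f a x - M (ph f a) (fun l => (1 - lam) * sg (x l) + p l)) ^ 2) 0 := by
    intro a
    refine le_trans (le_of_eq ?_) (bessel _)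
    unfold W1
    apply Finset.sum_congr rfl
    intro i _
    rw [← U_eq, ← U_noise]
    congr 1
    unfold U
    rw [← Finset.sum_sub_distrib]
    apply Finset.sum_congr rfl
    intro y _
    ring
  refine (Finset.sum_le_sum fun a _ => h1 a).trans ?_
  rw [← M_sum, ← M_const (4 * ((1 + ε) * r) * (k * lam)) (0 : Fin k → ℝ)]
  apply M_mono (by simp)
  intro x
  calc ∑ a, (ph f a x - M (ph f a) (fun l => (1 - lam) * sg (x l) + p l)) ^ 2
      ≤ ∑ a, M (fun y => (ph f a x - ph f a y) ^ 2) (fun l => (1 - lam) * sg (x l) + p l) :=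
        Finset.sum_le_sum fun a _ => sq_sub_M_le (hq x) _
    _ = M (fun y => ∑ a, (ph f a x - ph f a y) ^ 2) (fun l => (1 - lam) * sg (x l) + p l) :=
        (M_sum _ _ _).symm
    _ ≤ M (fun y => 4 * ((1 + ε) * r) * (hammingDist x y : ℝ))
          (fun l => (1 - lam) * sg (x l) + p l) := by
        apply M_mono (hq x)
        intro y
        have h2 := sum_sq_sg (f x) (f y)
        have h3 := hup x y
        unfold ph
        rw [h2]
        linarith
    _ ≤ 4 * ((1 + ε) * r) * (k * lam) := by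
        rw [M_mul, M_hamming]
        apply mul_le_mul_of_nonneg_left _ (by linarith)
        calc ∑ i, (1 - ((1 - lam) * sg (x i) + p i) * sg (x i)) / 2 ≤ ∑ _i : Fin k, lam := by
              apply Finset.sum_le_sum
              intro i _
              have h4 := abs_le.1 (hp i)
              cases x i <;> simp <;> linarith [h4.1, h4.2]
          _ = k * lam := by simp

lemma corr_ge (hr : 0 < r) (hε0 : 0 < ε) (hε1 : ε < 1)
    (hlo : ∀ x y, r * (hammingDist x y : ℝ) ≤ hammingDist (f x) (f y))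
    (hup : ∀ x y, (hammingDist (f x) (f y) : ℝ) ≤ (1 + ε) * r * hammingDist x y)
    {p : Fin k → ℝ} (hp : ∀ l, |p l| ≤ (1 - ε) / 16) :
    (1 - ε) * (r * k) / 4 ≤ ∑ i, ∑ a, U (ph f a) i p * U (ph f a) i 0 := by
  have h1 := w1_ge hlo hup
  have h2 := close_le (by positivity) hup (lam := (1 - ε) / 16) (by linarith) hp
  set lam := (1 - ε) / 16 with hlam
  set S := ∑ i, ∑ a, U (ph f a) i p * U (ph f a) i 0 with hS
  have h3 : ∑ a, W1 (ph f a) - 2 * (1 - lam) * S
      ≤ ∑ a, ∑ i, (U (ph f a) i 0 - (1 - lam) * U (ph f a) i p) ^ 2 := by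
    rw [hS, Finset.sum_comm, Finset.mul_sum, ← Finset.sum_sub_distrib]
    apply Finset.sum_le_sum
    intro a _
    unfold W1
    rw [Finset.mul_sum, ← Finset.sum_sub_distrib]
    apply Finset.sum_le_sum
    intro i _
    rw [← U_eq]
    nlinarith [sq_nonneg ((1 - lam) * U (ph f a) i p)]
  have hrk : 0 ≤ r * k := by positivity
  have h4 : 4 * ((1 + ε) * r) * (k * lam) ≤ (1 - ε) * (r * k) / 2 := by
    have : 4 * ((1 + ε) * r) * (k * lam) = (1 + ε) / 2 * ((1 - ε) * (r * k) / 2) := by
      rw [hlam]; ring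
    rw [this]
    have h5 : 0 ≤ (1 - ε) * (r * k) / 2 := by
      have : 0 ≤ 1 - ε := by linarith
      positivity
    nlinarith
  have h6 : (1 - ε) * (r * k) / 2 ≤ 2 * (1 - lam) * S := by linarith
  have hl0 : 0 < lam := by rw [hlam]; linarith
  have hl1 : lam < 1 := by rw [hlam]; linarith
  have h7 : 0 ≤ (1 - ε) * (r * k) := by
    have : 0 ≤ 1 - ε := by linarith
    positivity
  have hS0 : 0 ≤ S := by
    by_contra hneg
    push Not at hneg
    nlinarith
  nlinarith

lemma gram_ge {m : ℕ} (C : Fin m → Fin N → ℝ) (P d : ℝ)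
    (hdiag : ∀ a, ∑ j, C j a * C j a = P)
    (hoff : ∀ a b, a ≠ b → |∑ j, C j a * C j b| ≤ d) (hd : 0 ≤ d) (u w : Fin N → ℝ) :
    P * ∑ a, u a * w a - d * ((∑ a, |u a|) * ∑ b, |w b|)
      ≤ ∑ j, (∑ a, C j a * u a) * (∑ b, C j b * w b) := by
  have h1 : ∑ j, (∑ a, C j a * u a) * (∑ b, C j b * w b)
      = ∑ a, ∑ b, (∑ j, C j a * C j b) * (u a * w b) := by
    simp_rw [Finset.sum_mul_sum, Finset.sum_mul]
    rw [Finset.sum_comm]
    apply Finset.sum_congr rfl
    intro a _
    rw [Finset.sum_comm]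
    apply Finset.sum_congr rfl
    intro b _
    apply Finset.sum_congr rfl
    intro j _
    ring
  rw [h1, Finset.sum_mul_sum, Finset.mul_sum, Finset.mul_sum, ← Finset.sum_sub_distrib]
  apply Finset.sum_le_sum
  intro a _
  have h2 : P * (u a * w a) = ∑ b, if b = a then P * (u a * w b) else 0 := by simp
  rw [h2, Finset.mul_sum, ← Finset.sum_sub_distrib]
  apply Finset.sum_le_sum
  intro b _
  by_cases hab : b = a
  · subst hab
    rw [if_pos rfl, hdiag]
    have : 0 ≤ d * (|u b| * |w b|) := by positivity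
    linarith
  · rw [if_neg hab, zero_sub]
    have h3 := hoff a b (Ne.symm hab)
    have h4 : |(∑ j, C j a * C j b) * (u a * w b)| ≤ d * (|u a| * |w b|) := by
      rw [abs_mul, abs_mul]
      exact mul_le_mul_of_nonneg_right h3 (by positivity)
    exact (abs_le.1 h4).1

theorem core {n : ℕ} (hr : 0 < r) (hε0 : 0 < ε) (hε1 : ε < 1)
    (hlo : ∀ x y, r * (hammingDist x y : ℝ) ≤ hammingDist (f x) (f y))
    (hup : ∀ x y, (hammingDist (f x) (f y) : ℝ) ≤ (1 + ε) * r * hammingDist x y)
    (C : Fin (n + 1) → Fin N → ℝ) (P d t : ℝ) (hP : 0 < P) (hd : 0 ≤ d)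
    (hcol : ∀ a, ∑ j, |C j a| = P)
    (hdiag : ∀ a, ∑ j, C j a * C j a = P)
    (hoff : ∀ a b, a ≠ b → |∑ j, C j a * C j b| ≤ d)
    (hPd : 32 * d * r ≤ P * (1 - ε))
    (ht : ∀ y j, |∑ a, C j a * sg (f y a)| ≤ t) :
    (1 - ε) ^ 2 * k / 256 ≤ 2 * (n + 1) * t := by
  have hε : 0 < 1 - ε := by linarith
  set s : ℝ := (1 - ε) / (32 * P * r) with hs
  have hs0 : 0 < s := by positivity
  -- the linear map from the box to the solid cube
  let w : Fin k → Fin (n + 1) → ℝ := fun i j => ∑ b, C j b * U (ph f b) i 0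
  let L : (Fin (n + 1) → ℝ) →L[ℝ] (Fin k → ℝ) :=
    ContinuousLinearMap.pi fun i => ∑ j, (s * w i j) • ContinuousLinearMap.proj j
  have hL : ∀ θ i, L θ i = ∑ j, s * w i j * θ j := by
    intro θ i
    simp [L]
  have hLe : ∀ j i, L (Pi.single j 1) i = s * w i j := by
    intro j i
    rw [hL, Finset.sum_eq_single j]
    · simp
    · intro l _ hl
      simp [Pi.single_eq_of_ne hl]
    · simp
  have hw : ∀ i, ∑ j, |w i j| ≤ P * ((1 + ε) * r) := by
    intro i
    calc ∑ j, |w i j| ≤ ∑ j, ∑ b, |C j b| * |U (ph f b) i 0| := by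
          apply Finset.sum_le_sum
          intro j _
          refine (Finset.abs_sum_le_sum_abs _ _).trans (le_of_eq ?_)
          exact Finset.sum_congr rfl fun b _ => abs_mul _ _
      _ = ∑ b, P * |U (ph f b) i 0| := by
          rw [Finset.sum_comm]
          apply Finset.sum_congr rfl
          intro b _
          rw [← Finset.sum_mul, hcol]
      _ ≤ P * ((1 + ε) * r) := by
          rw [← Finset.mul_sum]
          exact mul_le_mul_of_nonneg_left (edge_l1 hup i (by simp)) hP.le
  have hLb : ∀ θ ∈ Set.Icc (0 : Fin (n + 1) → ℝ) 1, ∀ i, |L θ i| ≤ (1 - ε) / 16 := by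
    intro θ hθ i
    rw [hL]
    calc |∑ j, s * w i j * θ j| ≤ ∑ j, s * |w i j| := by
          refine (Finset.abs_sum_le_sum_abs _ _).trans ?_
          apply Finset.sum_le_sum
          intro j _
          rw [abs_mul, abs_mul, abs_of_pos hs0, abs_of_nonneg (hθ.1 j)]
          have h1 : θ j ≤ 1 := hθ.2 j
          have h2 : 0 ≤ s * |w i j| := by positivity
          nlinarith
      _ ≤ s * (P * ((1 + ε) * r)) := by
          rw [← Finset.mul_sum]
          exact mul_le_mul_of_nonneg_left (hw i) hs0.le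
      _ = (1 + ε) / 2 * ((1 - ε) / 16) := by
          rw [hs]; field_simp; ring
      _ ≤ (1 - ε) / 16 := by nlinarith
  have hLb1 : ∀ θ ∈ Set.Icc (0 : Fin (n + 1) → ℝ) 1, ∀ i, |L θ i| ≤ 1 := by
    intro θ hθ i
    have := hLb θ hθ i
    linarith
  let G : Fin (n + 1) → (Fin k → Bool) → ℝ := fun j y => ∑ a, C j a * ph f a y
  have hdiv : ∀ θ : Fin (n + 1) → ℝ,
      ∑ j, ((∑ i, U (G j) i (L θ) • (ContinuousLinearMap.proj i : (Fin k → ℝ) →L[ℝ] ℝ)).comp L)
        (Pi.single j 1) = s * ∑ i, ∑ j, U (G j) i (L θ) * w i j := by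
    intro θ
    rw [Finset.sum_comm, Finset.mul_sum]
    apply Finset.sum_congr rfl
    intro j _
    rw [ContinuousLinearMap.comp_apply, _root_.sum_apply, Finset.mul_sum]
    apply Finset.sum_congr rfl
    intro i _
    rw [_root_.smul_apply, ContinuousLinearMap.proj_apply, hLe, smul_eq_mul]
    ring
  apply div_bound (fun j θ => M (G j) (L θ))
    (fun j θ => (∑ i, U (G j) i (L θ) •
      (ContinuousLinearMap.proj i : (Fin k → ℝ) →L[ℝ] ℝ)).comp L)
  · intro j θ
    exact (hasFDerivAt_M (G j) (L θ)).comp θ L.hasFDerivAt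
  · simp_rw [hdiv]
    have : ∀ j i, Continuous fun θ => U (G j) i (L θ) := fun j i =>
      (continuous_U (G j) i).comp L.continuous
    fun_prop
  · intro j θ hθ
    exact abs_M_le (hLb1 θ hθ) (fun y => ht y j)
  · intro θ hθ
    rw [hdiv]
    have h1 := corr_ge hr hε0 hε1 hlo hup (hLb θ hθ)
    have h2 : ∀ i, P * ∑ a, U (ph f a) i (L θ) * U (ph f a) i 0 - d * (4 * r ^ 2)
        ≤ ∑ j, U (G j) i (L θ) * w i j := by
      intro i
      have h3 := gram_ge C P d hdiag hoff hd (fun a => U (ph f a) i (L θ))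
        (fun b => U (ph f b) i 0)
      have h4 := edge_l1 hup i (hLb1 θ hθ)
      have h5 := edge_l1 hup i (p := 0) (by simp)
      have h6 : (∑ a, |U (ph f a) i (L θ)|) * ∑ b, |U (ph f b) i 0| ≤ 4 * r ^ 2 := by
        have h7 : (1 + ε) * r ≤ 2 * r := by nlinarith
        calc _ ≤ (2 * r) * (2 * r) := by
              apply mul_le_mul (h4.trans h7) (h5.trans h7)
              · exact Finset.sum_nonneg fun _ _ => abs_nonneg _
              · positivity
          _ = 4 * r ^ 2 := by ring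
      have h8 : ∀ j, U (G j) i (L θ) = ∑ a, C j a * U (ph f a) i (L θ) := fun j =>
        U_sum_mul _ _ _ _ _
      simp_rw [h8]
      have h9 := mul_le_mul_of_nonneg_left h6 hd
      linarith
    have h3 : P * ((1 - ε) * (r * k) / 4) - k * (d * (4 * r ^ 2))
        ≤ ∑ i, ∑ j, U (G j) i (L θ) * w i j := by
      refine le_trans ?_ (Finset.sum_le_sum fun i _ => h2 i)
      rw [Finset.sum_sub_distrib, ← Finset.mul_sum]
      simp only [Finset.sum_const, Finset.card_univ, Fintype.card_fin, nsmul_eq_mul]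
      have := mul_le_mul_of_nonneg_left h1 hP.le
      linarith
    have h4 : P * ((1 - ε) * (r * k) / 8) ≤ ∑ i, ∑ j, U (G j) i (L θ) * w i j := by
      have hrk : 0 ≤ r * k := by positivity
      have := mul_le_mul_of_nonneg_right hPd hrk
      nlinarith
    calc (1 - ε) ^ 2 * k / 256 = s * (P * ((1 - ε) * (r * k) / 8)) := by
          rw [hs]; field_simp; ring
      _ ≤ _ := mul_le_mul_of_nonneg_left h4 hs0.le

end core

end Pool.Agent.P.MP_1fa774_co
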