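import Mathlib

set_option linter.unusedSectionVars false

namespace Pool.Agent.P.MP_1fa774_co

open Finset

/-- sign of a bit -/
def sg (b : Bool) : ℝ := if b then 1 else -1

@[simp] lemma sg_true : sg true = 1 := by simp [sg]
@[simp] lemma sg_false : sg false = -1 := by simp [sg]
lemma sg_mul_self (b : Bool) : sg b * sg b = 1 := by cases b <;> simp
lemma abs_sg (b : Bool) : |sg b| = 1 := by cases b <;> simp

lemma sg_sub_sq (a b : Bool) : (sg a - sg b) ^ 2 = 4 * (if a ≠ b then 1 else 0) := by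
  cases a <;> cases b <;> simp <;> norm_num

lemma abs_sg_sub (a b : Bool) : |sg a - sg b| = 2 * (if a ≠ b then 1 else 0) := by
  cases a <;> cases b <;> simp <;> norm_num

section general

variable {ι : Type*} [Fintype ι] [DecidableEq ι]

lemma hd_eq (x y : ι → Bool) :
    (hammingDist x y : ℝ) = ∑ i, (if x i ≠ y i then 1 else 0) := by
  simp only [hammingDist, Finset.card_filter]
  push_cast
  rfl

lemma sum_prod_bool (h : ι → Bool → ℝ) :
    ∑ y : ι → Bool, ∏ l, h l (y l) = ∏ l, (h l true + h l false) := by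
  have := Finset.prod_univ_sum (fun _ : ι => (Finset.univ : Finset Bool)) h
  rw [Fintype.piFinset_univ] at this
  rw [← this]
  simp

/-- product weight with mean vector `p` -/
noncomputable def wt (p : ι → ℝ) (y : ι → Bool) : ℝ := ∏ i, (1 + p i * sg (y i)) / 2

/-- derivative of the weight in direction `i` -/
noncomputable def wt' (i : ι) (p : ι → ℝ) (y : ι → Bool) : ℝ :=
  (∏ l ∈ univ.erase i, (1 + p l * sg (y l)) / 2) * (sg (y i) / 2)

/-- multilinear extension -/
noncomputable def M (g : (ι → Bool) → ℝ) (p : ι → ℝ) : ℝ := ∑ y, wt p y * g y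

/-- derivative of the multilinear extension -/
noncomputable def U (g : (ι → Bool) → ℝ) (i : ι) (p : ι → ℝ) : ℝ := ∑ y, wt' i p y * g y

/-- discrete derivative -/
noncomputable def Dd (i : ι) (g : (ι → Bool) → ℝ) (y : ι → Bool) : ℝ :=
  (g (Function.update y i true) - g (Function.update y i false)) / 2

lemma sum_wt (p : ι → ℝ) : ∑ y, wt p y = 1 := by
  unfold wt
  rw [sum_prod_bool (fun l b => (1 + p l * sg b) / 2)]
  apply Finset.prod_eq_one
  intro i _
  simp; ring

lemma wt_nonneg {p : ι → ℝ} (hp : ∀ i, |p i| ≤ 1) (y : ι → Bool) : 0 ≤ wt p y := by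
  unfold wt
  apply Finset.prod_nonneg
  intro i _
  have := abs_le.1 (hp i)
  cases y i <;> simp <;> linarith [this.1, this.2]

lemma wt_zero (y : ι → Bool) : wt 0 y = 1 / 2 ^ Fintype.card ι := by
  unfold wt
  simp

lemma sum_update (i : ι) (H : (ι → Bool) → ℝ) :
    ∑ y, H y = ∑ y, (H (Function.update y i true) + H (Function.update y i false)) / 2 := by
  have hinv : Function.Involutive (fun y : ι → Bool => Function.update y i (!(y i))) := by
    intro y
    ext l
    by_cases h : l = i
    · subst h; simp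
    · simp [Function.update_of_ne h]
  have h1 : ∑ y, H y = ∑ y, H (Function.update y i (!(y i))) :=
    (Equiv.sum_comp hinv.toPerm H).symm
  have h2 : ∀ y : ι → Bool, H (Function.update y i true) + H (Function.update y i false)
      = H y + H (Function.update y i (!(y i))) := by
    intro y
    cases h : y i
    · have : Function.update y i false = y := by rw [← h]; simp
      rw [this]; simp [add_comm]
    · have : Function.update y i true = y := by rw [← h]; simp
      rw [this]; simp
  simp_rw [h2]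
  rw [← Finset.sum_div, Finset.sum_add_distrib, ← h1]
  ring

lemma prod_erase_update (i : ι) (p : ι → ℝ) (y : ι → Bool) (b : Bool) :
    (∏ l ∈ univ.erase i, (1 + p l * sg (Function.update y i b l)) / 2)
      = ∏ l ∈ univ.erase i, (1 + p l * sg (y l)) / 2 := by
  apply Finset.prod_congr rfl
  intro l hl
  rw [Function.update_of_ne (Finset.ne_of_mem_erase hl)]

lemma wt_eq (i : ι) (p : ι → ℝ) (y : ι → Bool) :
    wt p y = (∏ l ∈ univ.erase i, (1 + p l * sg (y l)) / 2) * ((1 + p i * sg (y i)) / 2) := by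
  unfold wt
  rw [Finset.prod_erase_mul _ _ (Finset.mem_univ i)]

lemma U_eq (g : (ι → Bool) → ℝ) (i : ι) (p : ι → ℝ) : U g i p = M (Dd i g) p := by
  unfold U M
  rw [sum_update i, sum_update i (fun y => wt p y * Dd i g y)]
  apply Finset.sum_congr rfl
  intro y _
  simp only [wt', wt_eq i, prod_erase_update, Dd, Function.update_self, Function.update_idem,
    sg_true, sg_false]
  ring

lemma hasFDerivAt_M (g : (ι → Bool) → ℝ) (p : ι → ℝ) :
    HasFDerivAt (M g)
      (∑ i, U g i p • (ContinuousLinearMap.proj i : (ι → ℝ) →L[ℝ] ℝ)) p := by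
  have h1 : ∀ y : ι → Bool, HasFDerivAt (fun q : ι → ℝ => wt q y)
      (∑ i, wt' i p y • (ContinuousLinearMap.proj i : (ι → ℝ) →L[ℝ] ℝ)) p := by
    intro y
    have h2 : ∀ i ∈ (univ : Finset ι), HasFDerivAt (fun q : ι → ℝ => (1 + q i * sg (y i)) / 2)
        ((sg (y i) / 2) • (ContinuousLinearMap.proj i : (ι → ℝ) →L[ℝ] ℝ)) p := by
      intro i _
      have h3 : HasFDerivAt (fun q : ι → ℝ => q i)
          (ContinuousLinearMap.proj i : (ι → ℝ) →L[ℝ] ℝ) p := hasFDerivAt_apply i p
      have h4 := (h3.const_smul (sg (y i) / 2)).const_add (1 / 2)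
      have e : (fun q : ι → ℝ => (1 + q i * sg (y i)) / 2)
          = fun q : ι → ℝ => 1 / 2 + ((sg (y i) / 2) • fun q : ι → ℝ => q i) q := by
        ext q
        simp only [Pi.smul_apply, smul_eq_mul]; ring
      rw [e]; exact h4
    have := HasFDerivAt.finsetProd h2
    refine HasFDerivAt.congr_fderiv this ?_
    apply Finset.sum_congr rfl
    intro i _
    rw [smul_smul]; rfl
  have h5 : HasFDerivAt (fun q => ∑ y, wt q y * g y)
      (∑ y, g y • (∑ i, wt' i p y • (ContinuousLinearMap.proj i : (ι → ℝ) →L[ℝ] ℝ))) p := by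
    apply HasFDerivAt.fun_sum
    intro y _
    exact (h1 y).mul_const (g y)
  refine HasFDerivAt.congr_fderiv h5 ?_
  simp_rw [Finset.smul_sum, smul_smul]
  rw [Finset.sum_comm]
  apply Finset.sum_congr rfl
  intro i _
  rw [← Finset.sum_smul]
  congr 1
  unfold U
  apply Finset.sum_congr rfl
  intro y _
  ring

lemma continuous_U (g : (ι → Bool) → ℝ) (i : ι) : Continuous (U g i) := by
  unfold U wt'
  fun_prop

lemma abs_M_le {g : (ι → Bool) → ℝ} {p : ι → ℝ} (hp : ∀ i, |p i| ≤ 1) {t : ℝ}
    (hg : ∀ y, |g y| ≤ t) : |M g p| ≤ t := by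
  unfold M
  calc |∑ y, wt p y * g y| ≤ ∑ y, |wt p y * g y| := Finset.abs_sum_le_sum_abs _ _
    _ ≤ ∑ y, wt p y * t := by
        apply Finset.sum_le_sum
        intro y _
        rw [abs_mul, abs_of_nonneg (wt_nonneg hp y)]
        exact mul_le_mul_of_nonneg_left (hg y) (wt_nonneg hp y)
    _ = t := by rw [← Finset.sum_mul, sum_wt, one_mul]

lemma M_mono {g h : (ι → Bool) → ℝ} {p : ι → ℝ} (hp : ∀ i, |p i| ≤ 1)
    (hg : ∀ y, g y ≤ h y) : M g p ≤ M h p := by
  unfold M
  apply Finset.sum_le_sum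
  intro y _
  exact mul_le_mul_of_nonneg_left (hg y) (wt_nonneg hp y)

lemma M_const (c : ℝ) (p : ι → ℝ) : M (fun _ => c) p = c := by
  unfold M
  rw [← Finset.sum_mul, sum_wt, one_mul]

lemma M_sum {κ : Type*} (s : Finset κ) (g : κ → (ι → Bool) → ℝ) (p : ι → ℝ) :
    M (fun y => ∑ a ∈ s, g a y) p = ∑ a ∈ s, M (g a) p := by
  unfold M
  simp_rw [Finset.mul_sum]
  rw [Finset.sum_comm]

lemma M_mul (c : ℝ) (g : (ι → Bool) → ℝ) (p : ι → ℝ) :
    M (fun y => c * g y) p = c * M g p := by
  unfold M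
  rw [Finset.mul_sum]
  apply Finset.sum_congr rfl
  intro y _
  ring

lemma U_sum_mul {κ : Type*} (s : Finset κ) (c : κ → ℝ) (g : κ → (ι → Bool) → ℝ) (i : ι)
    (p : ι → ℝ) :
    U (fun y => ∑ a ∈ s, c a * g a y) i p = ∑ a ∈ s, c a * U (g a) i p := by
  unfold U
  simp_rw [Finset.mul_sum]
  rw [Finset.sum_comm]
  apply Finset.sum_congr rfl
  intro a _
  apply Finset.sum_congr rfl
  intro y _
  ring

lemma abs_M_le_M_abs {g : (ι → Bool) → ℝ} {p : ι → ℝ} (hp : ∀ i, |p i| ≤ 1) :
    |M g p| ≤ M (fun y => |g y|) p := by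
  unfold M
  refine (Finset.abs_sum_le_sum_abs _ _).trans (le_of_eq ?_)
  apply Finset.sum_congr rfl
  intro y _
  rw [abs_mul, abs_of_nonneg (wt_nonneg hp y)]

/-- Jensen -/
lemma sq_sub_M_le {g : (ι → Bool) → ℝ} {p : ι → ℝ} (hp : ∀ i, |p i| ≤ 1) (c : ℝ) :
    (c - M g p) ^ 2 ≤ M (fun y => (c - g y) ^ 2) p := by
  have h1 : M (fun y => (c - g y) ^ 2) p
      = M (fun y => (g y - M g p) ^ 2) p + (c - M g p) ^ 2 := by
    have hs := sum_wt p
    have e1 : ∀ y, wt p y * (c - g y) ^ 2 = wt p y * (g y - M g p) ^ 2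
        + (c ^ 2 - (M g p) ^ 2) * wt p y + (2 * M g p - 2 * c) * (wt p y * g y) := by
      intro y; ring
    calc M (fun y => (c - g y) ^ 2) p = ∑ y, wt p y * (c - g y) ^ 2 := rfl
      _ = ∑ y, wt p y * (g y - M g p) ^ 2 + (c ^ 2 - (M g p) ^ 2) * ∑ y, wt p y
          + (2 * M g p - 2 * c) * ∑ y, wt p y * g y := by
          simp_rw [e1]
          rw [Finset.sum_add_distrib, Finset.sum_add_distrib, ← Finset.mul_sum, ← Finset.mul_sum]
      _ = M (fun y => (g y - M g p) ^ 2) p + (c - M g p) ^ 2 := by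
          rw [hs]
          change _ + _ + _ * M g p = ∑ y, wt p y * (g y - M g p) ^ 2 + _
          ring
  rw [h1]
  have h2 : 0 ≤ M (fun y => (g y - M g p) ^ 2) p := by
    rw [← M_const 0 p]
    exact M_mono hp (fun y => sq_nonneg _)
  linarith

/-- mean of a function of one coordinate -/
lemma M_coord (i : ι) (h : Bool → ℝ) (p : ι → ℝ) :
    M (fun y => h (y i)) p = (1 + p i) / 2 * h true + (1 - p i) / 2 * h false := by
  unfold M
  rw [sum_update i]
  have : ∀ y : ι → Bool, (wt p (Function.update y i true) * h (Function.update y i true i)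
      + wt p (Function.update y i false) * h (Function.update y i false i)) / 2
      = ((wt p (Function.update y i true) + wt p (Function.update y i false)) / 2)
        * ((1 + p i) / 2 * h true + (1 - p i) / 2 * h false) := by
    intro y
    simp only [wt_eq i, prod_erase_update, Function.update_self, sg_true, sg_false]
    ring
  simp_rw [this]
  rw [← Finset.sum_mul, ← sum_update i (fun y => wt p y), sum_wt, one_mul]

lemma M_hamming (x : ι → Bool) (p : ι → ℝ) :
    M (fun y => (hammingDist x y : ℝ)) p = ∑ i, (1 - p i * sg (x i)) / 2 := by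
  simp_rw [hd_eq]
  rw [M_sum]
  apply Finset.sum_congr rfl
  intro i _
  rw [M_coord i (fun b => if x i ≠ b then 1 else 0)]
  cases x i <;> simp

/-- level one coefficient of the noisy extension -/
lemma U_noise (g : (ι → Bool) → ℝ) (i : ι) (ρ : ℝ) (p : ι → ℝ) :
    U (fun x => M g (fun l => ρ * sg (x l) + p l)) i 0 = ρ * U g i p := by
  unfold U M
  simp_rw [Finset.mul_sum]
  rw [Finset.sum_comm]
  apply Finset.sum_congr rfl
  intro y _
  have h1 : ∀ x : ι → Bool, wt' i 0 x * (wt (fun l => ρ * sg (x l) + p l) y * g y)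
      = (∏ l, ((if l = i then sg (x l) else 1) / 2
          * ((1 + (ρ * sg (x l) + p l) * sg (y l)) / 2))) * g y := by
    intro x
    rw [Finset.prod_mul_distrib, ← mul_assoc]
    congr 2
    unfold wt'
    rw [← Finset.prod_erase_mul _ _ (Finset.mem_univ i)]
    simp only [Pi.zero_apply, zero_mul, add_zero, if_true]
    congr 1
    apply Finset.prod_congr rfl
    intro l hl
    rw [if_neg (Finset.ne_of_mem_erase hl)]
  simp_rw [h1]
  rw [← Finset.sum_mul, sum_prod_bool (fun l b => (if l = i then sg b else 1) / 2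
          * ((1 + (ρ * sg b + p l) * sg (y l)) / 2)), ← mul_assoc]
  congr 1
  unfold wt'
  rw [← Finset.prod_erase_mul _ _ (Finset.mem_univ i)]
  simp only [if_true, sg_true, sg_false]
  have : ∏ l ∈ univ.erase i, ((if l = i then (1 : ℝ) else 1) / 2
      * ((1 + (ρ * 1 + p l) * sg (y l)) / 2) + (if l = i then (-1 : ℝ) else 1) / 2
      * ((1 + (ρ * -1 + p l) * sg (y l)) / 2))
      = ∏ l ∈ univ.erase i, (1 + p l * sg (y l)) / 2 := by
    apply Finset.prod_congr rfl
    intro l hl
    rw [if_neg (Finset.ne_of_mem_erase hl), if_neg (Finset.ne_of_mem_erase hl)]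
    ring
  rw [this]
  ring

end general

end Pool.Agent.P.MP_1fa774_co
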