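import Pool.Agent.P.MP_1fa774_co.Core

namespace Pool.Agent.P.MP_1fa774_co

open Finset

/-- incoherent zero-one matrix from graphs of polynomials of degree at most seven -/
lemma exists_matrix (P : ℕ) (hP : P.Prime) (N : ℕ) (hN : N ≤ P ^ 8) :
    ∃ (n : ℕ) (C : Fin (n + 1) → Fin N → ℝ), n + 1 = P ^ 2 ∧
      (∀ a, ∑ j, |C j a| = P) ∧ (∀ a, ∑ j, C j a * C j a = P) ∧
      (∀ a b, a ≠ b → |∑ j, C j a * C j b| ≤ 7) := by
  have : Fact P.Prime := ⟨hP⟩
  obtain ⟨n, hn⟩ : ∃ n, n + 1 = P ^ 2 := ⟨P ^ 2 - 1, Nat.sub_add_cancel (Nat.pow_pos hP.pos)⟩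
  have hc1 : Fintype.card (Fin (n + 1)) = Fintype.card (ZMod P × ZMod P) := by
    simp [ZMod.card, hn, sq]
  let e := Fintype.equivOfCardEq hc1
  have hc2 : Fintype.card (Fin N) ≤ Fintype.card (Fin 8 → ZMod P) := by
    simpa [ZMod.card] using hN
  obtain ⟨g⟩ := Function.Embedding.nonempty_of_card_le hc2
  let ev : Fin N → ZMod P → ZMod P := fun a α => ∑ l : Fin 8, g a l * α ^ (l : ℕ)
  let C0 : ZMod P × ZMod P → Fin N → ℝ := fun z a => if ev a z.1 = z.2 then 1 else 0
  have hprod : ∀ a b, ∑ z, C0 z a * C0 z b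
      = ((univ.filter fun α => ev a α = ev b α).card : ℝ) := by
    intro a b
    rw [Fintype.sum_prod_type, Finset.card_filter]
    push_cast
    apply Finset.sum_congr rfl
    intro α _
    rw [Finset.sum_eq_single (ev a α)]
    · simp only [C0, if_true, one_mul]
      by_cases h : ev a α = ev b α
      · rw [if_pos h, if_pos h.symm]
      · rw [if_neg h, if_neg (fun h' => h h'.symm)]
    · intro β _ hβ
      simp only [C0]
      rw [if_neg (Ne.symm hβ), zero_mul]
    · simp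
  have hdiag : ∀ a, ∑ z, C0 z a * C0 z a = P := by
    intro a
    rw [hprod]
    simp [ZMod.card]
  refine ⟨n, fun j a => C0 (e j) a, hn, ?_, ?_, ?_⟩
  · intro a
    rw [e.sum_comp (fun z => |C0 z a|), ← hdiag a]
    apply Finset.sum_congr rfl
    intro z _
    simp only [C0]
    split_ifs <;> simp
  · intro a
    rw [e.sum_comp (fun z => C0 z a * C0 z a), hdiag]
  · intro a b hab
    rw [e.sum_comp (fun z => C0 z a * C0 z b), hprod, abs_of_nonneg (Nat.cast_nonneg _)]
    have : (univ.filter fun α => ev a α = ev b α).card ≤ 7 := by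
      by_contra hcon
      have h8 : 8 ≤ (univ.filter fun α => ev a α = ev b α).card := by omega
      obtain ⟨s, hs, hcard⟩ := Finset.exists_subset_card_eq h8
      let φ : Fin 8 → ZMod P := fun i => (s.equivFinOfCardEq hcard).symm i
      have hφ : Function.Injective φ := by
        intro i j hij
        exact (s.equivFinOfCardEq hcard).symm.injective (Subtype.ext hij)
      have h0 := Matrix.eq_zero_of_forall_index_sum_mul_pow_eq_zero (f := φ)
        (v := fun l => g a l - g b l) hφ (by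
          intro j
          have hj : φ j ∈ univ.filter fun α => ev a α = ev b α :=
            hs ((s.equivFinOfCardEq hcard).symm j).2
          have hj2 := (Finset.mem_filter.1 hj).2
          simp only [ev] at hj2
          simp_rw [sub_mul]
          rw [Finset.sum_sub_distrib, hj2, sub_self])
      apply hab
      apply g.injective
      ext l
      have := congrFun h0 l
      simpa [sub_eq_zero] using this
    exact_mod_cast this

lemma M_lin_sq {N : ℕ} (c : Fin N → ℝ) :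
    M (fun z : Fin N → Bool => (∑ a, c a * sg (z a)) ^ 2) 0 = ∑ a, c a * c a := by
  induction N with
  | zero => simp [M_const]
  | succ N ih =>
    rw [M_sq_succ, Fin.sum_univ_succ, ← ih (fun a => c a.succ), add_comm]
    congr 1
    · rw [← M_const (c 0 * c 0) (0 : Fin N → ℝ)]
      congr 1
      ext y
      simp only [od, Fin.sum_univ_succ, Fin.cons_zero, Fin.cons_succ, sg_true, sg_false]
      ring
    · congr 1
      ext y
      simp only [ev, Fin.sum_univ_succ, Fin.cons_zero, Fin.cons_succ, sg_true, sg_false]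
      ring

/-- the set of balanced points is dense -/
lemma exists_dense {N m : ℕ} (C : Fin m → Fin N → ℝ) (P : ℝ)
    (hdiag : ∀ a, ∑ j, C j a * C j a = P) (δ t : ℝ) (ht : 0 < t)
    (h : N * P ≤ (1 - δ) * t ^ 2) :
    ∃ D : Finset (Fin N → Bool), δ * 2 ^ N ≤ D.card ∧
      ∀ z ∈ D, ∀ j, |∑ a, C j a * sg (z a)| ≤ t := by
  classical
  let D : Finset (Fin N → Bool) := univ.filter fun z => ∀ j, |∑ a, C j a * sg (z a)| ≤ t
  refine ⟨D, ?_, fun z hz => (Finset.mem_filter.1 hz).2⟩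
  have h1 : M (fun z : Fin N → Bool => ∑ j, (∑ a, C j a * sg (z a)) ^ 2) 0 = N * P := by
    rw [M_sum]
    simp_rw [M_lin_sq]
    rw [Finset.sum_comm]
    simp [hdiag]
  have h2 : M (fun z : Fin N → Bool => t ^ 2 * (1 + (-1) * if z ∈ D then 1 else 0)) 0
      ≤ M (fun z : Fin N → Bool => ∑ j, (∑ a, C j a * sg (z a)) ^ 2) 0 := by
    apply M_mono (by simp)
    intro z
    by_cases hz : z ∈ D
    · rw [if_pos hz]
      simp only [mul_one, add_neg_cancel, mul_zero]
      exact Finset.sum_nonneg fun _ _ => sq_nonneg _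
    · rw [if_neg hz]
      simp only [D, Finset.mem_filter, Finset.mem_univ, true_and, not_forall, not_le] at hz
      obtain ⟨j, hj⟩ := hz
      have h3 : t ^ 2 ≤ (∑ a, C j a * sg (z a)) ^ 2 := by
        rw [← sq_abs (∑ a, C j a * sg (z a))]
        exact pow_le_pow_left₀ ht.le hj.le 2
      have h4 := Finset.single_le_sum (f := fun j => (∑ a, C j a * sg (z a)) ^ 2)
        (fun _ _ => sq_nonneg _) (Finset.mem_univ j)
      simp only [mul_zero, add_zero, mul_one]
      exact h3.trans h4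
  have h3 : M (fun z : Fin N → Bool => if z ∈ D then (1 : ℝ) else 0) 0 = D.card / 2 ^ N := by
    unfold M
    simp_rw [wt_zero]
    rw [← Finset.mul_sum]
    simp
    ring
  rw [M_mul, M_add, M_const, M_mul, h3, h1] at h2
  have h4 : t ^ 2 * (1 + (-1) * (D.card / 2 ^ N)) ≤ t ^ 2 * (1 - δ) := by linarith
  have h5 := le_of_mul_le_mul_left h4 (by positivity)
  have h6 : δ ≤ D.card / 2 ^ N := by linarith
  rwa [le_div_iff₀ (by positivity)] at h6

/-- the lower bound, in unfolded form -/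
theorem not_good {δ ε : ℝ} (hδ : δ < 1) (hε0 : 0 < ε) (hε1 : ε < 1) :
    ∀ᶠ k : ℕ in Filter.atTop, ∀ N : ℕ, (N : ℝ) ≤ (k : ℝ) ^ (8 / 7 : ℝ) →
      ∃ D : Finset (Fin N → Bool), δ * 2 ^ N ≤ D.card ∧
        ∀ (f : (Fin k → Bool) → (Fin N → Bool)) (r : ℝ), 0 < r →
          (∀ x y, r * (hammingDist x y : ℝ) ≤ hammingDist (f x) (f y)) →
          (∀ x y, (hammingDist (f x) (f y) : ℝ) ≤ (1 + ε) * r * hammingDist x y) →
          ¬ ∀ x, f x ∈ D := by
  have hε : 0 < 1 - ε := by linarith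
  have hδ' : 0 < 1 - δ := by linarith
  set A : ℝ := 224 / (1 - ε) with hA
  have hA1 : 1 ≤ A := by
    rw [hA, le_div_iff₀ hε]; linarith
  set B : ℝ := (512 / (1 - ε) ^ 2) ^ 2 * (4 * A) ^ 5 / (1 - δ) with hB
  have htend : Filter.Tendsto (fun k : ℕ => (k : ℝ) ^ (1 / 7 : ℝ)) Filter.atTop Filter.atTop :=
    (tendsto_rpow_atTop (by norm_num)).comp tendsto_natCast_atTop_atTop
  filter_upwards [htend.eventually_gt_atTop B, htend.eventually_ge_atTop 1] with k hkB hk1 N hN
  set y : ℝ := (k : ℝ) ^ (1 / 7 : ℝ) with hy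
  have hk0 : (0 : ℝ) ≤ k := Nat.cast_nonneg k
  have hy7 : y ^ 7 = k := by
    rw [hy, ← Real.rpow_natCast, ← Real.rpow_mul hk0]; norm_num
  have hy8 : (k : ℝ) ^ (8 / 7 : ℝ) = y ^ 8 := by
    rw [hy, ← Real.rpow_natCast, ← Real.rpow_mul hk0]; norm_num
  rw [hy8] at hN
  have hy0 : 0 < y := by linarith
  have hAy : 1 ≤ A * y := by nlinarith
  obtain ⟨P, hP, hP1, hP2⟩ := Nat.exists_prime_lt_and_le_two_mul ⌈A * y⌉₊
    (by
      have := Nat.ceil_pos.2 (show 0 < A * y by linarith)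
      omega)
  have hPlo : A * y ≤ P := (Nat.le_ceil _).trans (by exact_mod_cast hP1.le)
  have hPhi : (P : ℝ) ≤ 4 * A * y := by
    have h1 : (P : ℝ) ≤ 2 * (⌈A * y⌉₊ : ℝ) := by exact_mod_cast hP2
    have h2 := (Nat.ceil_lt_add_one (show 0 ≤ A * y by linarith)).le
    linarith
  have hP0 : (0 : ℝ) < P := by linarith
  have hyP : y ≤ P := by nlinarith
  have hNP : N ≤ P ^ 8 := by
    have : (N : ℝ) ≤ (P : ℝ) ^ 8 := hN.trans (pow_le_pow_left₀ hy0.le hyP 8)
    exact_mod_cast this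
  obtain ⟨n, C, hn, hcol, hdiag, hoff⟩ := exists_matrix P hP N hNP
  set t : ℝ := Real.sqrt (y ^ 8 * P / (1 - δ)) with htdef
  have ht2 : t ^ 2 = y ^ 8 * P / (1 - δ) := Real.sq_sqrt (by positivity)
  have ht0 : 0 < t := Real.sqrt_pos.2 (by positivity)
  obtain ⟨D, hD1, hD2⟩ := exists_dense C P hdiag δ t ht0 (by
    rw [ht2, mul_div_cancel₀ _ hδ'.ne']
    exact mul_le_mul_of_nonneg_right hN hP0.le)
  refine ⟨D, hD1, ?_⟩
  intro f r hr hlo hup hf
  have hrk : r * k ≤ N := by
    have h1 := hlo (fun _ => true) (fun _ => false)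
    have h2 : (hammingDist (fun _ : Fin k => true) (fun _ => false) : ℝ) = k := by
      rw [hd_eq]; simp
    have h3 : hammingDist (f fun _ => true) (f fun _ => false) ≤ N := by
      simpa using hammingDist_le_card_fintype (x := f fun _ => true) (y := f fun _ => false)
    have h4 : (hammingDist (f fun _ => true) (f fun _ => false) : ℝ) ≤ N := by exact_mod_cast h3
    rw [h2] at h1
    linarith
  have hry : r ≤ y := by
    have h1 : r * y ^ 7 ≤ y * y ^ 7 := by
      rw [hy7]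
      calc r * k ≤ N := hrk
        _ ≤ y ^ 8 := hN
        _ = y * y ^ 7 := by ring
        _ = y * k := by rw [hy7]
    exact le_of_mul_le_mul_right h1 (by positivity)
  have hPd : 32 * 7 * r ≤ P * (1 - ε) := by
    have h1 : A * y * (1 - ε) = 224 * y := by rw [hA]; field_simp
    have h2 := mul_le_mul_of_nonneg_right hPlo hε.le
    linarith
  have hc := core hr hε0 hε1 hlo hup C P 7 t hP0 (by norm_num) hcol hdiag hoff hPd
    (fun x j => hD2 _ (hf x) j)
  have hn' : ((n : ℝ) + 1) = (P : ℝ) ^ 2 := by exact_mod_cast hn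
  rw [hn', ← hy7] at hc
  have h1 : y ^ 7 ≤ 512 / (1 - ε) ^ 2 * (P : ℝ) ^ 2 * t := by
    rw [div_mul_eq_mul_div, div_mul_eq_mul_div, le_div_iff₀ (by positivity)]
    linarith
  have h2 : (y ^ 7) ^ 2 ≤ (512 / (1 - ε) ^ 2 * (P : ℝ) ^ 2 * t) ^ 2 :=
    pow_le_pow_left₀ (by positivity) h1 2
  have h3 : (512 / (1 - ε) ^ 2 * (P : ℝ) ^ 2 * t) ^ 2
      = (512 / (1 - ε) ^ 2) ^ 2 / (1 - δ) * y ^ 8 * (P : ℝ) ^ 5 := by
    rw [mul_pow, ht2]; field_simp
  have h4 : (P : ℝ) ^ 5 ≤ (4 * A * y) ^ 5 := pow_le_pow_left₀ hP0.le hPhi 5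
  have h5 : (512 / (1 - ε) ^ 2) ^ 2 / (1 - δ) * y ^ 8 * (P : ℝ) ^ 5 ≤ B * y ^ 13 := by
    calc _ ≤ (512 / (1 - ε) ^ 2) ^ 2 / (1 - δ) * y ^ 8 * (4 * A * y) ^ 5 :=
          mul_le_mul_of_nonneg_left h4 (by positivity)
      _ = B * y ^ 13 := by rw [hB]; field_simp
  have h6 : B * y ^ 13 < y * y ^ 13 := mul_lt_mul_of_pos_right hkB (by positivity)
  have h7 : (y ^ 7) ^ 2 = y * y ^ 13 := by ring
  linarith

end Pool.Agent.P.MP_1fa774_co
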