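import Pool.Agent.P.MP_1fa774_co.Dense

namespace Pool.Agent.P.MP_1fa774_co

open Finset

/-- boxes with good pairs of sides in dense sets -/
lemma exists_box : ∀ (k : ℕ) (δ : ℝ), 0 < δ → ∃ η : ℝ, 0 < η ∧
    ∀ (B : Type) [Fintype B] [DecidableEq B] [Nonempty B] (bad : Finset (B × B)),
      (bad.card : ℝ) ≤ η * (Fintype.card B : ℝ) ^ 2 →
      ∀ D : Finset (Fin k → B), δ * (Fintype.card B : ℝ) ^ k ≤ D.card →
        ∃ u v : Fin k → B, (∀ i, (u i, v i) ∉ bad) ∧
          ∀ x : Fin k → Bool, (fun i => if x i then u i else v i) ∈ D := by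
  intro k
  induction k with
  | zero =>
    intro δ hδ
    refine ⟨1, one_pos, ?_⟩
    intro B _ _ _ bad _ D hD
    have h1 : (0 : ℝ) < D.card := by
      simp only [pow_zero, mul_one] at hD
      linarith
    have h2 : D.Nonempty := Finset.card_pos.1 (by exact_mod_cast h1)
    obtain ⟨z, hz⟩ := h2
    refine ⟨z, z, fun i => i.elim0, fun x => ?_⟩
    have e : (fun i => if x i then z i else z i) = z := by
      funext i
      exact i.elim0
    rw [e]
    exact hz
  | succ k ih =>
    intro δ hδ
    obtain ⟨η, hη, H⟩ := ih (δ ^ 2 / 2) (by positivity)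
    refine ⟨min η (δ ^ 2 / 4), lt_min hη (by positivity), ?_⟩
    intro B _ _ _ bad hbad D hD
    set b : ℝ := (Fintype.card B : ℝ) with hb
    have hb0 : 0 < b := by rw [hb]; exact_mod_cast Fintype.card_pos
    let ind : B → (Fin k → B) → ℝ := fun u z => if Fin.cons u z ∈ D then 1 else 0
    let E : B × B → Finset (Fin k → B) := fun q =>
      univ.filter fun z => Fin.cons q.1 z ∈ D ∧ Fin.cons q.2 z ∈ D
    have hE : ∀ q, ((E q).card : ℝ) = ∑ z, ind q.1 z * ind q.2 z := by
      intro q
      simp only [E, Finset.card_filter, ind]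
      push_cast
      apply Finset.sum_congr rfl
      intro z _
      by_cases h1 : Fin.cons q.1 z ∈ D <;> by_cases h2 : Fin.cons q.2 z ∈ D <;> simp [h1, h2]
    have hDc : (D.card : ℝ) = ∑ z : Fin k → B, ∑ u, ind u z := by
      have h1 : (D.card : ℝ) = ∑ w : Fin (k + 1) → B, if w ∈ D then 1 else 0 := by simp
      rw [h1, ← (Fin.consEquiv (fun _ : Fin (k + 1) => B)).sum_comp, Fintype.sum_prod_type,
        Finset.sum_comm]
      rfl
    have hsum : ∑ q, ((E q).card : ℝ) = ∑ z : Fin k → B, (∑ u, ind u z) ^ 2 := by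
      simp_rw [hE, sq, Finset.sum_mul_sum]
      rw [Finset.sum_comm]
      apply Finset.sum_congr rfl
      intro z _
      rw [Fintype.sum_prod_type]
    have hcs := sq_sum_le_card_mul_sum_sq (s := (univ : Finset (Fin k → B)))
      (f := fun z => ∑ u, ind u z)
    rw [← hsum, ← hDc] at hcs
    simp only [Finset.card_univ, Fintype.card_fun, Fintype.card_fin, Nat.cast_pow] at hcs
    rw [← hb] at hcs
    have hbk : 0 < b ^ k := by positivity
    have h1 : δ ^ 2 * b ^ 2 * b ^ k ≤ ∑ q, ((E q).card : ℝ) := by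
      have h2 : (δ * b ^ (k + 1)) ^ 2 ≤ (D.card : ℝ) ^ 2 :=
        pow_le_pow_left₀ (by positivity) hD 2
      have h3 : b ^ k * (δ ^ 2 * b ^ 2 * b ^ k) ≤ b ^ k * ∑ q, ((E q).card : ℝ) := by
        calc _ = (δ * b ^ (k + 1)) ^ 2 := by ring
          _ ≤ _ := h2.trans hcs
      exact le_of_mul_le_mul_left h3 hbk
    have hex : ∃ q, q ∉ bad ∧ δ ^ 2 / 2 * b ^ k ≤ (E q).card := by
      by_contra hcon
      push Not at hcon
      have h2 : ∑ q, ((E q).card : ℝ)
          ≤ ∑ q : B × B, (δ ^ 2 / 2 * b ^ k + (if q ∈ bad then 1 else 0) * b ^ k) := by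
        apply Finset.sum_le_sum
        intro q _
        by_cases hq : q ∈ bad
        · rw [if_pos hq, one_mul]
          have h3 : (E q).card ≤ Fintype.card (Fin k → B) := Finset.card_le_univ _
          have h4 : ((E q).card : ℝ) ≤ b ^ k := by
            rw [hb]
            simp only [Fintype.card_fun, Fintype.card_fin] at h3
            exact_mod_cast h3
          have : 0 ≤ δ ^ 2 / 2 * b ^ k := by positivity
          linarith
        · rw [if_neg hq, zero_mul, add_zero]
          exact (hcon q hq).le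
      rw [Finset.sum_add_distrib, ← Finset.sum_mul, ← Finset.sum_mul] at h2
      simp only [Finset.sum_const, Finset.card_univ, Fintype.card_prod, nsmul_eq_mul,
        Nat.cast_mul, Finset.sum_ite_mem, Finset.univ_inter, mul_one] at h2
      rw [← hb] at h2
      have h5 : (bad.card : ℝ) ≤ δ ^ 2 / 4 * b ^ 2 :=
        hbad.trans (mul_le_mul_of_nonneg_right (min_le_right _ _) (by positivity))
      have h6 := mul_le_mul_of_nonneg_right h5 hbk.le
      have h7 : 0 < δ ^ 2 * b ^ 2 * b ^ k := by positivity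
      nlinarith
    obtain ⟨q, hq, hqE⟩ := hex
    obtain ⟨u, v, huv, hx⟩ := H B bad
      (hbad.trans (mul_le_mul_of_nonneg_right (min_le_left _ _) (by positivity))) (E q) hqE
    refine ⟨Fin.cons q.1 u, Fin.cons q.2 v, ?_, ?_⟩
    · intro i
      refine Fin.cases ?_ (fun i => ?_) i
      · simpa using hq
      · simpa using huv i
    · intro x
      have h2 := (Finset.mem_filter.1 (hx (Fin.tail x))).2
      cases h : x 0
      · convert h2.2 using 1
        ext i
        refine Fin.cases ?_ (fun i => ?_) i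
        · simp [h]
        · simp only [Fin.cons_succ]
          rfl
      · convert h2.1 using 1
        ext i
        refine Fin.cases ?_ (fun i => ?_) i
        · simp [h]
        · simp only [Fin.cons_succ]
          rfl

lemma hd_sg {n : ℕ} (u v : Fin n → Bool) :
    (hammingDist u v : ℝ) = (n - ∑ a, sg (u a) * sg (v a)) / 2 := by
  rw [hd_eq]
  have : ∀ a, (if u a ≠ v a then (1 : ℝ) else 0) = (1 - sg (u a) * sg (v a)) / 2 := by
    intro a
    cases u a <;> cases v a <;> simp
  simp_rw [this]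
  rw [← Finset.sum_div, Finset.sum_sub_distrib]
  simp

lemma bad_small {n : ℕ} (s : ℝ) (hs : 0 < s) :
    (((univ : Finset ((Fin n → Bool) × (Fin n → Bool))).filter
      fun q => s < |∑ a, sg (q.1 a) * sg (q.2 a)|).card : ℝ)
      ≤ n / s ^ 2 * (Fintype.card (Fin n → Bool) : ℝ) ^ 2 := by
  have h1 : ∀ u : Fin n → Bool, ∑ v : Fin n → Bool, (∑ a, sg (u a) * sg (v a)) ^ 2
      = n * 2 ^ n := by
    intro u
    have h2 := M_lin_sq (fun a => sg (u a))
    simp_rw [sg_mul_self] at h2
    unfold M at h2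
    simp_rw [wt_zero] at h2
    rw [← Finset.mul_sum] at h2
    simp only [Fintype.card_fin, Finset.sum_const, Finset.card_univ, nsmul_eq_mul, mul_one] at h2
    rw [← h2]
    field_simp
  have h3 : ∑ q : (Fin n → Bool) × (Fin n → Bool), (∑ a, sg (q.1 a) * sg (q.2 a)) ^ 2
      = n * (2 ^ n) ^ 2 := by
    rw [Fintype.sum_prod_type]
    simp_rw [h1]
    simp
    ring
  rw [Finset.card_filter]
  push_cast
  simp only [Fintype.card_fun, Fintype.card_bool, Fintype.card_fin, Nat.cast_pow, Nat.cast_ofNat]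
  rw [div_mul_eq_mul_div, ← h3, Finset.sum_div]
  apply Finset.sum_le_sum
  intro q _
  split_ifs with h
  · rw [le_div_iff₀ (by positivity), one_mul, ← sq_abs (∑ a, sg (q.1 a) * sg (q.2 a))]
    exact pow_le_pow_left₀ hs.le h.le 2
  · positivity

/-- finiteness of the embedding number, in unfolded form -/
theorem exists_good {δ ε : ℝ} (hδ : 0 < δ) (hε0 : 0 < ε) (hε1 : ε < 1) (k : ℕ) :
    ∃ N : ℕ, ∀ D : Finset (Fin N → Bool), δ * 2 ^ N ≤ D.card →
      ∃ f : (Fin k → Bool) → (Fin N → Bool), (∃ r : ℝ, 0 < r ∧ ∀ x y,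
        r * (hammingDist x y : ℝ) ≤ hammingDist (f x) (f y) ∧
        (hammingDist (f x) (f y) : ℝ) ≤ (1 + ε) * r * hammingDist x y) ∧ ∀ x, f x ∈ D := by
  classical
  obtain ⟨η, hη, H⟩ := exists_box k δ hδ
  obtain ⟨n, hn⟩ := exists_nat_gt (16 / (ε ^ 2 * η))
  have hn0 : (0 : ℝ) < n := lt_trans (by positivity) hn
  refine ⟨k * n, ?_⟩
  intro D hD
  let Φ : (Fin k → Fin n → Bool) ≃ (Fin (k * n) → Bool) :=
    (Equiv.curry (Fin k) (Fin n) Bool).symm.trans (Equiv.arrowCongr finProdFinEquiv (Equiv.refl _))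
  have hΦ : ∀ z i a, Φ z (finProdFinEquiv (i, a)) = z i a := by
    intro z i a
    simp [Φ]
  have hdist : ∀ z w, (hammingDist (Φ z) (Φ w) : ℝ) = ∑ i, (hammingDist (z i) (w i) : ℝ) := by
    intro z w
    rw [hd_eq, ← finProdFinEquiv.sum_comp, Fintype.sum_prod_type]
    apply Finset.sum_congr rfl
    intro i _
    rw [hd_eq]
    simp_rw [hΦ]
  have hbad := bad_small (n := n) (ε * n / 4) (by positivity)
  have hη2 : n / (ε * n / 4) ^ 2 ≤ η := by
    rw [div_le_iff₀ (by positivity)]
    rw [div_lt_iff₀ (by positivity)] at hn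
    nlinarith
  obtain ⟨u, v, huv, hx⟩ := H (Fin n → Bool) _
    (hbad.trans (mul_le_mul_of_nonneg_right hη2 (by positivity))) (D.map Φ.symm.toEmbedding) (by
      rw [Finset.card_map]
      simp only [Fintype.card_fun, Fintype.card_bool, Fintype.card_fin, Nat.cast_pow,
        Nat.cast_ofNat]
      rw [← pow_mul, mul_comm n k]
      exact hD)
  have hgood : ∀ i, n * (1 - ε / 4) / 2 ≤ (hammingDist (u i) (v i) : ℝ) ∧
      (hammingDist (u i) (v i) : ℝ) ≤ (1 + ε) * (n * (1 - ε / 4) / 2) := by
    intro i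
    have h1 := huv i
    simp only [Finset.mem_filter, Finset.mem_univ, true_and, not_lt] at h1
    have h2 := abs_le.1 h1
    rw [hd_sg]
    constructor
    · linarith [h2.2]
    · have h3 : 0 ≤ n * ε * (1 - ε) := by
        have : 0 ≤ 1 - ε := by linarith
        positivity
      have h4 : 0 ≤ n * ε := by positivity
      nlinarith [h2.1]
  refine ⟨fun x => Φ (fun i => if x i then u i else v i), ⟨n * (1 - ε / 4) / 2, ?_, ?_⟩, ?_⟩
  · have : 0 < 1 - ε / 4 := by linarith
    positivity
  · intro x y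
    rw [hdist, hd_eq x y, Finset.mul_sum, Finset.mul_sum]
    constructor
    · apply Finset.sum_le_sum
      intro i _
      have h1 := hgood i
      have h2 : hammingDist (v i) (u i) = hammingDist (u i) (v i) := hammingDist_comm _ _
      cases x i <;> cases y i <;> simp [h2] <;> linarith [h1.1]
    · apply Finset.sum_le_sum
      intro i _
      have h1 := hgood i
      have h2 : hammingDist (v i) (u i) = hammingDist (u i) (v i) := hammingDist_comm _ _
      cases x i <;> cases y i <;> simp [h2] <;> linarith [h1.2]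
  · intro x
    have h1 := hx x
    rw [Finset.mem_map_equiv] at h1
    simpa using h1

end Pool.Agent.P.MP_1fa774_co
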