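import Pool.Agent.P.MP_1fa774_co.Cube

namespace Pool.Agent.P.MP_1fa774_co

open Finset

lemma M_add {ι : Type*} [Fintype ι] [DecidableEq ι] (g h : (ι → Bool) → ℝ) (p : ι → ℝ) :
    M (fun y => g y + h y) p = M g p + M h p := by
  unfold M
  rw [← Finset.sum_add_distrib]
  apply Finset.sum_congr rfl
  intro y _
  ring

lemma M_zero_nonneg {ι : Type*} [Fintype ι] [DecidableEq ι] {g : (ι → Bool) → ℝ}
    (hg : ∀ y, 0 ≤ g y) : 0 ≤ M g 0 := by
  rw [← M_const 0 (0 : ι → ℝ)]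
  exact M_mono (by simp) hg

lemma M_succ {k : ℕ} (g : (Fin (k + 1) → Bool) → ℝ) :
    M g 0 = M (fun y : Fin k → Bool => (g (Fin.cons true y) + g (Fin.cons false y)) / 2) 0 := by
  unfold M
  simp_rw [wt_zero]
  rw [← (Fin.consEquiv (fun _ : Fin (k + 1) => Bool)).sum_comp, Fintype.sum_prod_type,
    Fintype.sum_bool, ← Finset.sum_add_distrib]
  apply Finset.sum_congr rfl
  intro y _
  simp only [Fintype.card_fin]
  change 1 / 2 ^ (k + 1) * g (Fin.cons true y) + 1 / 2 ^ (k + 1) * g (Fin.cons false y) = _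
  field_simp
  ring

/-- even half -/
noncomputable def ev {k : ℕ} (g : (Fin (k + 1) → Bool) → ℝ) (y : Fin k → Bool) : ℝ :=
  (g (Fin.cons true y) + g (Fin.cons false y)) / 2

/-- odd half -/
noncomputable def od {k : ℕ} (g : (Fin (k + 1) → Bool) → ℝ) (y : Fin k → Bool) : ℝ :=
  (g (Fin.cons true y) - g (Fin.cons false y)) / 2

lemma M_ev {k : ℕ} (g : (Fin (k + 1) → Bool) → ℝ) : M g 0 = M (ev g) 0 := M_succ g

lemma M_sq_succ {k : ℕ} (g : (Fin (k + 1) → Bool) → ℝ) :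
    M (fun y => g y ^ 2) 0 = M (fun y => ev g y ^ 2) 0 + M (fun y => od g y ^ 2) 0 := by
  rw [M_succ, ← M_add]
  congr 1
  ext y
  unfold ev od
  ring

lemma Dd_zero_cons {k : ℕ} (g : (Fin (k + 1) → Bool) → ℝ) (b : Bool) (y : Fin k → Bool) :
    Dd 0 g (Fin.cons b y) = od g y := by
  unfold Dd od
  rw [Fin.update_cons_zero, Fin.update_cons_zero]

lemma ev_Dd_zero {k : ℕ} (g : (Fin (k + 1) → Bool) → ℝ) : ev (Dd 0 g) = od g := by
  ext y
  unfold ev
  rw [Dd_zero_cons, Dd_zero_cons]; ring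

lemma od_Dd_zero {k : ℕ} (g : (Fin (k + 1) → Bool) → ℝ) : od (Dd 0 g) = fun _ => 0 := by
  ext y
  unfold od
  rw [Dd_zero_cons, Dd_zero_cons]; ring

lemma ev_Dd_succ {k : ℕ} (g : (Fin (k + 1) → Bool) → ℝ) (i : Fin k) :
    ev (Dd i.succ g) = Dd i (ev g) := by
  ext y
  unfold ev Dd
  simp only [← Fin.cons_update]
  ring

lemma od_Dd_succ {k : ℕ} (g : (Fin (k + 1) → Bool) → ℝ) (i : Fin k) :
    od (Dd i.succ g) = Dd i (od g) := by
  ext y
  unfold od Dd
  simp only [← Fin.cons_update]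
  ring

/-- level one weight -/
noncomputable def W1 {k : ℕ} (g : (Fin k → Bool) → ℝ) : ℝ := ∑ i, (M (Dd i g) 0) ^ 2

/-- total influence -/
noncomputable def Inf {k : ℕ} (g : (Fin k → Bool) → ℝ) : ℝ := ∑ i, M (fun y => Dd i g y ^ 2) 0

/-- variance -/
noncomputable def Vr {k : ℕ} (g : (Fin k → Bool) → ℝ) : ℝ :=
  M (fun y => g y ^ 2) 0 - (M g 0) ^ 2

lemma W1_succ {k : ℕ} (g : (Fin (k + 1) → Bool) → ℝ) :
    W1 g = W1 (ev g) + (M (od g) 0) ^ 2 := by
  unfold W1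
  rw [Fin.sum_univ_succ, add_comm]
  congr 1
  · apply Finset.sum_congr rfl
    intro i _
    rw [M_ev, ev_Dd_succ]
  · rw [M_ev, ev_Dd_zero]

lemma Inf_succ {k : ℕ} (g : (Fin (k + 1) → Bool) → ℝ) :
    Inf g = Inf (ev g) + Inf (od g) + M (fun y => od g y ^ 2) 0 := by
  unfold Inf
  rw [Fin.sum_univ_succ, add_comm]
  congr 1
  · rw [← Finset.sum_add_distrib]
    apply Finset.sum_congr rfl
    intro i _
    rw [M_sq_succ, ev_Dd_succ, od_Dd_succ]
  · rw [M_sq_succ, ev_Dd_zero, od_Dd_zero]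
    simp [M_const]

lemma Vr_succ {k : ℕ} (g : (Fin (k + 1) → Bool) → ℝ) :
    Vr g = Vr (ev g) + M (fun y => od g y ^ 2) 0 := by
  unfold Vr
  rw [M_sq_succ, M_ev g]
  ring

lemma Inf_nonneg {k : ℕ} (g : (Fin k → Bool) → ℝ) : 0 ≤ Inf g :=
  Finset.sum_nonneg fun _ _ => M_zero_nonneg fun _ => sq_nonneg _

lemma Vr_zero (g : (Fin 0 → Bool) → ℝ) : Vr g = 0 := by
  unfold Vr M wt
  simp

lemma Vr_nonneg {k : ℕ} (g : (Fin k → Bool) → ℝ) : 0 ≤ Vr g := by
  have := sq_sub_M_le (g := g) (p := 0) (by simp) 0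
  unfold Vr
  simp only [zero_sub, even_two, Even.neg_pow] at this
  linarith

lemma poincare {k : ℕ} : ∀ (g : (Fin k → Bool) → ℝ), Vr g ≤ Inf g := by
  induction k with
  | zero => intro g; rw [Vr_zero]; exact Inf_nonneg g
  | succ k ih =>
    intro g
    rw [Vr_succ, Inf_succ]
    have := ih (ev g)
    have := Inf_nonneg (od g)
    linarith

lemma poincare2 {k : ℕ} : ∀ (g : (Fin k → Bool) → ℝ), 2 * Vr g ≤ W1 g + Inf g := by
  induction k with
  | zero =>
    intro g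
    rw [Vr_zero]
    simp [W1, Inf]
  | succ k ih =>
    intro g
    rw [Vr_succ, Inf_succ, W1_succ]
    have h1 := ih (ev g)
    have h2 := poincare (od g)
    unfold Vr at h2
    linarith

lemma bessel {k : ℕ} : ∀ (g : (Fin k → Bool) → ℝ), W1 g ≤ M (fun y => g y ^ 2) 0 := by
  induction k with
  | zero =>
    intro g
    simp only [W1, Finset.univ_eq_empty, Finset.sum_empty]
    exact M_zero_nonneg fun _ => sq_nonneg _
  | succ k ih =>
    intro g
    rw [W1_succ, M_sq_succ]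
    have h1 := ih (ev g)
    have h2 := Vr_nonneg (od g)
    unfold Vr at h2
    linarith

lemma two_Vr {k : ℕ} (g : (Fin k → Bool) → ℝ) :
    2 * Vr g = M (fun x => M (fun y => (g x - g y) ^ 2) 0) 0 := by
  have h1 : ∀ x, M (fun y => (g x - g y) ^ 2) 0
      = g x ^ 2 + ((-2 * M g 0) * g x + M (fun y => g y ^ 2) 0) := by
    intro x
    have : (fun y => (g x - g y) ^ 2) = fun y => g x ^ 2 + ((-2 * g x) * g y + g y ^ 2) := by
      ext y; ring
    rw [this, M_add, M_add, M_const, M_mul]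
    ring
  simp_rw [h1]
  rw [M_add, M_add, M_const, M_mul]
  unfold Vr
  ring

end Pool.Agent.P.MP_1fa774_co
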